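import Mathlib

/-!
Graphs with a bounded number of common neighbours of `s` vertices and a small independence number:
box lemma for sets of tuples and the main inequality.
-/

set_option autoImplicit false

namespace Pool.Agent.V7H22.VU

open Finset

section box

variable {V : Type*} [Fintype V] [DecidableEq V]

lemma card_cons {r : ℕ} (H : Finset (Fin (r + 1) → V)) :
    H.card = ∑ w : Fin r → V, (univ.filter fun v : V => (Fin.cons v w : Fin (r + 1) → V) ∈ H).card := by
  rw [Finset.card_eq_sum_card_fiberwise (f := fun x => Fin.tail x) (t := univ)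
    (fun x _ => by simp)]
  refine Finset.sum_congr rfl fun w _ => ?_
  refine Finset.card_bij (fun x _ => x 0) ?_ ?_ ?_
  · intro x hx
    rw [mem_filter] at hx
    rw [mem_filter]
    refine ⟨mem_univ _, ?_⟩
    rw [← hx.2, Fin.cons_self_tail]
    exact hx.1
  · intro x hx y hy hxy
    rw [mem_filter] at hx hy
    rw [← Fin.cons_self_tail x, ← Fin.cons_self_tail y, hx.2, hy.2, hxy]
  · intro v hv
    rw [mem_filter] at hv
    exact ⟨Fin.cons v w, by simp [hv.2], by simp⟩

lemma choose_ratio {n d s : ℕ} {b : ℝ} (hb : 0 ≤ b) (hd : 2 * b * n ≤ d) (hs : (s : ℝ) ≤ b * n) :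
    b ^ s * (n.choose s : ℝ) ≤ (d.choose s : ℝ) := by
  have hsd : s ≤ d := by
    have : (s : ℝ) ≤ d := by
      have : 0 ≤ b * n := by positivity
      linarith
    exact_mod_cast this
  have h1 : (((d + 1 - s : ℕ) : ℝ)) ^ s ≤ (d.descFactorial s : ℝ) := by
    exact_mod_cast Nat.pow_sub_le_descFactorial d s
  have h2 : (n.descFactorial s : ℝ) ≤ (n : ℝ) ^ s := by
    exact_mod_cast Nat.descFactorial_le_pow n s
  have h3 : b * n ≤ ((d + 1 - s : ℕ) : ℝ) := by
    rw [Nat.cast_sub (by omega)]
    push_cast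
    linarith
  have h4 : (b * n) ^ s ≤ (d.descFactorial s : ℝ) :=
    (pow_le_pow_left₀ (by positivity) h3 s).trans h1
  have hf : (0 : ℝ) < (s.factorial : ℝ) := by exact_mod_cast s.factorial_pos
  have e1 : (d.descFactorial s : ℝ) = s.factorial * d.choose s := by
    exact_mod_cast Nat.descFactorial_eq_factorial_mul_choose d s
  have e2 : (n.descFactorial s : ℝ) = s.factorial * n.choose s := by
    exact_mod_cast Nat.descFactorial_eq_factorial_mul_choose n s
  rw [e1] at h4
  rw [e2] at h2
  have h5 : b ^ s * (s.factorial * n.choose s : ℝ) ≤ s.factorial * d.choose s :=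
    calc b ^ s * (s.factorial * n.choose s : ℝ) ≤ b ^ s * (n : ℝ) ^ s :=
          mul_le_mul_of_nonneg_left h2 (by positivity)
      _ = (b * n) ^ s := by rw [mul_pow]
      _ ≤ _ := h4
  have h6 : (s.factorial : ℝ) * (b ^ s * n.choose s) ≤ s.factorial * d.choose s := by
    calc (s.factorial : ℝ) * (b ^ s * n.choose s) = b ^ s * (s.factorial * n.choose s : ℝ) := by ring
      _ ≤ _ := h5
  exact le_of_mul_le_mul_left h6 hf

/-- One step: a dense set of tuples contains the product of an `s`-set and a dense set. -/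
lemma box_step {r s : ℕ} (hs1 : 1 ≤ s) {β : ℝ} (hβ : 0 < β) (H : Finset (Fin (r + 1) → V))
    (hH : 8 * β * (Fintype.card V : ℝ) ^ (r + 1) ≤ H.card)
    (hn : (s : ℝ) ≤ β * Fintype.card V) :
    ∃ S : Finset V, S.card = s ∧ 8 * β ^ (s + 1) * (Fintype.card V : ℝ) ^ r ≤
      ((univ.filter fun w : Fin r → V => ∀ v ∈ S, (Fin.cons v w : Fin (r + 1) → V) ∈ H).card : ℝ) := by
  classical
  set n : ℕ := Fintype.card V with hn0
  have hs0 : (1 : ℝ) ≤ s := by exact_mod_cast hs1
  have hnpos : (0 : ℝ) < n := by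
    by_contra hcon
    have : (n : ℝ) = 0 := le_antisymm (not_lt.1 hcon) (Nat.cast_nonneg _)
    rw [this] at hn
    linarith
  set D : (Fin r → V) → Finset V := fun w => univ.filter fun v : V =>
    (Fin.cons v w : Fin (r + 1) → V) ∈ H with hD
  set b : ℝ := 2 * β with hb
  set W : Finset (Fin r → V) := univ.filter fun w => 2 * b * n ≤ ((D w).card : ℝ) with hW
  have hcardF : ((univ : Finset (Fin r → V)).card : ℝ) = (n : ℝ) ^ r := by
    rw [card_univ, Fintype.card_fun, Fintype.card_fin]
    push_cast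
    rfl
  -- many `w` have a large fibre
  have h1 : (H.card : ℝ) ≤ W.card * n + (n : ℝ) ^ r * (2 * b * n) := by
    have e : (H.card : ℝ) = ∑ w : Fin r → V, ((D w).card : ℝ) := by
      rw [card_cons H]
      push_cast
      rfl
    rw [e, ← Finset.sum_filter_add_sum_filter_not univ (fun w => 2 * b * n ≤ ((D w).card : ℝ))]
    refine add_le_add ?_ ?_
    · calc ∑ w ∈ univ.filter (fun w => 2 * b * n ≤ ((D w).card : ℝ)), ((D w).card : ℝ)
          ≤ ∑ _w ∈ W, (n : ℝ) := by
            refine Finset.sum_le_sum fun w _ => ?_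
            exact_mod_cast Finset.card_le_univ _
        _ = W.card * n := by rw [sum_const, nsmul_eq_mul]
    · calc ∑ w ∈ univ.filter (fun w => ¬ 2 * b * n ≤ ((D w).card : ℝ)), ((D w).card : ℝ)
          ≤ ∑ _w ∈ univ.filter (fun w => ¬ 2 * b * n ≤ ((D w).card : ℝ)), (2 * b * n) := by
            refine Finset.sum_le_sum fun w hw => ?_
            rw [mem_filter] at hw
            exact (not_le.1 hw.2).le
        _ = (univ.filter (fun w => ¬ 2 * b * n ≤ ((D w).card : ℝ))).card * (2 * b * n) := by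
            rw [sum_const, nsmul_eq_mul]
        _ ≤ (n : ℝ) ^ r * (2 * b * n) := by
            refine mul_le_mul_of_nonneg_right ?_ (by positivity)
            rw [← hcardF]
            exact_mod_cast Finset.card_le_card (Finset.filter_subset _ _)
  have h2 : 2 * b * (n : ℝ) ^ r ≤ W.card := by
    have e : 8 * β * (n : ℝ) ^ (r + 1) = (n : ℝ) * (4 * b * (n : ℝ) ^ r) := by rw [hb]; ring
    have e2 : (W.card : ℝ) * n + (n : ℝ) ^ r * (2 * b * n) = n * (W.card + 2 * b * (n : ℝ) ^ r) := by
      ring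
    have h3 : (n : ℝ) * (4 * b * (n : ℝ) ^ r) ≤ n * (W.card + 2 * b * (n : ℝ) ^ r) := by
      rw [← e, ← e2]
      exact hH.trans h1
    have h4 := le_of_mul_le_mul_left h3 hnpos
    linarith
  -- double counting
  have hdc : ∑ S ∈ powersetCard s (univ : Finset V), ((W.filter fun w => S ⊆ D w).card : ℝ) =
      ∑ w ∈ W, (((D w).card.choose s : ℕ) : ℝ) := by
    have := Finset.sum_card_bipartiteAbove_eq_sum_card_bipartiteBelow
      (s := powersetCard s (univ : Finset V)) (t := W) (fun S w => S ⊆ D w)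
    have e : ∀ w ∈ W, (Finset.bipartiteBelow (fun S w => S ⊆ D w) (powersetCard s (univ : Finset V)) w).card
        = (D w).card.choose s := by
      intro w _
      rw [← Finset.card_powersetCard]
      congr 1
      ext S
      simp only [Finset.mem_bipartiteBelow, mem_powersetCard]
      constructor
      · rintro ⟨⟨_, h⟩, h'⟩; exact ⟨h', h⟩
      · rintro ⟨h', h⟩; exact ⟨⟨subset_univ _, h⟩, h'⟩
    rw [Finset.sum_congr rfl e] at this
    have e3 : ∀ S ∈ powersetCard s (univ : Finset V),
        (Finset.bipartiteAbove (fun S w => S ⊆ D w) W S).card = (W.filter fun w => S ⊆ D w).card :=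
      fun S _ => rfl
    rw [Finset.sum_congr rfl e3] at this
    exact_mod_cast this
  have hbn : (s : ℝ) ≤ b * n := by
    have : β * n ≤ b * n := mul_le_mul_of_nonneg_right (by rw [hb]; linarith) hnpos.le
    linarith
  have hsn : s ≤ n := by
    by_contra hcon
    -- W is nonempty, so some fibre has at least `2 b n ≥ s` elements
    have hWpos : 0 < (W.card : ℝ) := lt_of_lt_of_le (by positivity) h2
    have hWne : W.Nonempty := by
      rw [← Finset.card_pos]
      exact_mod_cast hWpos
    obtain ⟨w, hw⟩ := hWne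
    rw [hW, mem_filter] at hw
    have h5 : ((D w).card : ℝ) ≤ n := by exact_mod_cast Finset.card_le_univ _
    have h6 : (s : ℝ) ≤ n := by
      have : 0 ≤ b * n := by positivity
      linarith [hw.2]
    exact hcon (by exact_mod_cast h6)
  have hne : (powersetCard s (univ : Finset V)).Nonempty := by
    rw [← Finset.card_pos, card_powersetCard, card_univ]
    exact Nat.choose_pos hsn
  have h7 : ∑ _S ∈ powersetCard s (univ : Finset V), (8 * β ^ (s + 1) * (n : ℝ) ^ r) ≤
      ∑ S ∈ powersetCard s (univ : Finset V), ((W.filter fun w => S ⊆ D w).card : ℝ) := by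
    rw [hdc, sum_const, card_powersetCard, card_univ, nsmul_eq_mul, ← hn0]
    have h8 : ∀ w ∈ W, b ^ s * (n.choose s : ℝ) ≤ (((D w).card.choose s : ℕ) : ℝ) := by
      intro w hw
      rw [hW, mem_filter] at hw
      exact choose_ratio (by positivity) hw.2 hbn
    have h9 : (W.card : ℝ) * (b ^ s * (n.choose s : ℝ)) ≤ ∑ w ∈ W, (((D w).card.choose s : ℕ) : ℝ) := by
      rw [← nsmul_eq_mul, ← sum_const]
      exact Finset.sum_le_sum h8
    refine le_trans ?_ h9
    have h10 : 2 * b * (n : ℝ) ^ r * (b ^ s * (n.choose s : ℝ)) ≤ W.card * (b ^ s * (n.choose s : ℝ)) :=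
      mul_le_mul_of_nonneg_right h2 (by positivity)
    refine le_trans ?_ h10
    have h11 : 8 * β ^ (s + 1) ≤ 2 * b * b ^ s := by
      have e : 2 * b * b ^ s = 2 * (2 ^ (s + 1) * β ^ (s + 1)) := by rw [hb, ← mul_pow, pow_succ]; ring
      rw [e]
      have h12 : (4 : ℝ) ≤ 2 ^ (s + 1) := by
        calc (4 : ℝ) = 2 ^ 2 := by norm_num
          _ ≤ 2 ^ (s + 1) := pow_le_pow_right₀ (by norm_num) (by omega)
      have h13 : 0 < β ^ (s + 1) := by positivity
      nlinarith
    calc (n.choose s : ℝ) * (8 * β ^ (s + 1) * (n : ℝ) ^ r)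
        = (8 * β ^ (s + 1)) * ((n.choose s : ℝ) * (n : ℝ) ^ r) := by ring
      _ ≤ (2 * b * b ^ s) * ((n.choose s : ℝ) * (n : ℝ) ^ r) :=
          mul_le_mul_of_nonneg_right h11 (by positivity)
      _ = 2 * b * (n : ℝ) ^ r * (b ^ s * (n.choose s : ℝ)) := by ring
  obtain ⟨S, hS, hle⟩ := Finset.exists_le_of_sum_le hne h7
  refine ⟨S, (mem_powersetCard.1 hS).2, hle.trans ?_⟩
  have hsub : (W.filter fun w => S ⊆ D w) ⊆
      (univ.filter fun w : Fin r → V => ∀ v ∈ S, (Fin.cons v w : Fin (r + 1) → V) ∈ H) := by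
    intro w hw
    rw [mem_filter] at hw
    rw [mem_filter]
    refine ⟨mem_univ _, fun v hv => ?_⟩
    have := hw.2 hv
    rw [hD] at this
    exact (mem_filter.1 this).2
  exact_mod_cast Finset.card_le_card hsub

/-- A dense set of `r`-tuples contains a product of `r` sets with `s` elements. -/
lemma box {s : ℕ} (hs1 : 1 ≤ s) : ∀ (r : ℕ) (β : ℝ), 0 < β → β ≤ 1 → ∀ H : Finset (Fin r → V),
    8 * β * (Fintype.card V : ℝ) ^ r ≤ H.card →
    (s : ℝ) ≤ β ^ ((s + 1) ^ r) * Fintype.card V →
    ∃ S : Fin r → Finset V, (∀ i, (S i).card = s) ∧ ∀ y : Fin r → V, (∀ i, y i ∈ S i) → y ∈ H := by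
  intro r
  induction r with
  | zero =>
    intro β hβ _ H hH _
    have : 0 < (H.card : ℝ) := lt_of_lt_of_le (by positivity) hH
    have hne : H.Nonempty := by
      rw [← Finset.card_pos]
      exact_mod_cast this
    obtain ⟨x, hx⟩ := hne
    refine ⟨fun i => i.elim0, fun i => i.elim0, fun y _ => ?_⟩
    rwa [Subsingleton.elim y x]
  | succ r ih =>
    intro β hβ hβ1 H hH hn
    have hn1 : (s : ℝ) ≤ β * Fintype.card V := by
      refine hn.trans (mul_le_mul_of_nonneg_right ?_ (Nat.cast_nonneg _))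
      calc β ^ ((s + 1) ^ (r + 1)) ≤ β ^ 1 :=
            pow_le_pow_of_le_one hβ.le hβ1 (Nat.one_le_pow _ _ (by omega))
        _ = β := pow_one β
    obtain ⟨S0, hS0, hlink⟩ := box_step hs1 hβ H hH hn1
    have hn2 : (s : ℝ) ≤ (β ^ (s + 1)) ^ ((s + 1) ^ r) * Fintype.card V := by
      rw [← pow_mul, ← pow_succ']
      exact hn
    obtain ⟨S, hS, hall⟩ := ih (β ^ (s + 1)) (by positivity) (pow_le_one₀ hβ.le hβ1) _ hlink hn2
    refine ⟨Fin.cons S0 S, ?_, ?_⟩
    · intro i
      refine Fin.cases ?_ ?_ i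
      · simpa using hS0
      · intro j; simpa using hS j
    · intro y hy
      have h1 : ∀ j, Fin.tail y j ∈ S j := by
        intro j
        have := hy j.succ
        simpa [Fin.tail] using this
      have h2 := hall _ h1
      rw [mem_filter] at h2
      have h3 : y 0 ∈ S0 := by simpa using hy 0
      have h4 := h2.2 _ h3
      rwa [Fin.cons_self_tail] at h4

end box

end Pool.Agent.V7H22.VU
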