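import Pool.Agent.V7H22.VU.Box

/-!
The main inequality: if every `s` vertices have at most `c` common neighbours and every independent
set has at most `a` elements, then `(1 - ε) n ≤ a (c + s)`, for `n` large in terms of `s`, `a`, `ε`.
-/

set_option autoImplicit false

namespace Pool.Agent.V7H22.VU

open Finset

variable {V : Type*} [Fintype V] [DecidableEq V]

open Classical in
/-- the independent `r`-tuples of distinct vertices -/
noncomputable def indep (G : SimpleGraph V) (r : ℕ) : Finset (Fin r → V) :=
  univ.filter fun x => Function.Injective x ∧ ∀ i j, ¬ G.Adj (x i) (x j)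

open Classical in
/-- the vertices by which a tuple can be extended -/
noncomputable def ext (G : SimpleGraph V) {r : ℕ} (x : Fin r → V) : Finset V :=
  univ.filter fun v => (Fin.cons v x : Fin (r + 1) → V) ∈ indep G (r + 1)

lemma mem_indep {G : SimpleGraph V} {r : ℕ} {x : Fin r → V} :
    x ∈ indep G r ↔ Function.Injective x ∧ ∀ i j, ¬ G.Adj (x i) (x j) := by
  unfold indep
  simp

lemma tail_indep {G : SimpleGraph V} {r : ℕ} {x : Fin r → V} {v : V}
    (h : (Fin.cons v x : Fin (r + 1) → V) ∈ indep G (r + 1)) : x ∈ indep G r := by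
  rw [mem_indep] at h ⊢
  refine ⟨fun i j hij => ?_, fun i j => ?_⟩
  · have := @h.1 i.succ j.succ (by simpa using hij)
    exact Fin.succ_injective _ this
  · have := h.2 i.succ j.succ
    simpa using this

lemma cons_indep {G : SimpleGraph V} {r : ℕ} {x : Fin r → V} {v : V} (hx : x ∈ indep G r)
    (h1 : ∀ i, v ≠ x i) (h2 : ∀ i, ¬ G.Adj (x i) v) :
    (Fin.cons v x : Fin (r + 1) → V) ∈ indep G (r + 1) := by
  rw [mem_indep] at hx ⊢
  refine ⟨?_, ?_⟩
  · rw [Fin.cons_injective_iff]
    refine ⟨?_, hx.1⟩
    rintro ⟨i, hi⟩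
    exact h1 i hi.symm
  · intro i j
    refine Fin.cases ?_ (fun i' => ?_) i
    · refine Fin.cases ?_ (fun j' => ?_) j
      · simp
      · simp only [Fin.cons_zero, Fin.cons_succ]
        exact fun h => h2 j' h.symm
    · refine Fin.cases ?_ (fun j' => ?_) j
      · simp only [Fin.cons_zero, Fin.cons_succ]
        exact h2 i'
      · simp only [Fin.cons_succ]
        exact hx.2 i' j'

lemma card_indep_succ (G : SimpleGraph V) (r : ℕ) :
    ((indep G (r + 1)).card : ℝ) = ∑ x ∈ indep G r, ((ext G x).card : ℝ) := by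
  have h : ((indep G (r + 1)).card : ℝ) = ∑ x : Fin r → V, ((ext G x).card : ℝ) := by
    rw [card_cons (indep G (r + 1))]
    push_cast
    refine Finset.sum_congr rfl fun x _ => ?_
    congr 2
  rw [h]
  symm
  refine Finset.sum_subset (subset_univ _) ?_
  intro x _ hx
  have : ext G x = ∅ := by
    rw [Finset.eq_empty_iff_forall_notMem]
    intro v hv
    unfold ext at hv
    rw [mem_filter] at hv
    exact hx (tail_indep hv.2)
  rw [this]
  simp

/-- the largest number of vertices with `s` given neighbours is at most `c` -/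
def CommonAtMost (G : SimpleGraph V) (s : ℕ) (c : ℝ) : Prop :=
  ∀ S : Finset V, S.card = s → (({w : V | ∀ v ∈ S, G.Adj v w}.ncard : ℕ) : ℝ) ≤ c

theorem core (G : SimpleGraph V) {s : ℕ} (hs1 : 1 ≤ s) {c : ℝ} (hc : CommonAtMost G s c) {a : ℕ}
    (ha : indep G (a + 1) = ∅) {ε : ℝ} (hε : 0 < ε) (hε1 : ε ≤ 1)
    (hn : (s : ℝ) ≤ ((ε / (2 * (s : ℝ) ^ a)) ^ a / 16) ^ ((s + 1) ^ a) * Fintype.card V) :
    (1 - ε) * Fintype.card V ≤ a * (c + s) := by
  classical
  set n : ℕ := Fintype.card V with hn0
  set δ : ℝ := ε / (2 * (s : ℝ) ^ a) with hδ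
  have hs0 : (1 : ℝ) ≤ s := by exact_mod_cast hs1
  have hspow : (1 : ℝ) ≤ (s : ℝ) ^ a := one_le_pow₀ hs0
  have hδ0 : 0 < δ := by rw [hδ]; positivity
  have hδ1 : δ ≤ 1 := by
    rw [hδ, div_le_one (by positivity)]
    linarith
  have hnpos : (0 : ℝ) < n := by
    by_contra hcon
    have : (n : ℝ) = 0 := le_antisymm (not_lt.1 hcon) (Nat.cast_nonneg _)
    rw [this] at hn
    linarith
  -- the level
  have hex : ∃ r : ℕ, ((indep G (r + 1)).card : ℝ) ≤ δ * n * (indep G r).card := by
    refine ⟨a, ?_⟩
    rw [ha]
    simp only [card_empty, Nat.cast_zero]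
    positivity
  set r := Nat.find hex with hr
  have hr1 : ((indep G (r + 1)).card : ℝ) ≤ δ * n * (indep G r).card := Nat.find_spec hex
  have hra : r ≤ a := by
    refine Nat.find_min' hex ?_
    rw [ha]
    simp only [card_empty, Nat.cast_zero]
    positivity
  have hlow : ∀ j : ℕ, j ≤ r → (δ * n) ^ j ≤ ((indep G j).card : ℝ) := by
    intro j
    induction j with
    | zero =>
      intro _
      have : indep G 0 = univ := by
        ext x
        rw [mem_indep]
        exact ⟨fun _ => mem_univ _, fun _ => ⟨fun i => i.elim0, fun i => i.elim0⟩⟩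
      rw [this]
      simp
    | succ j ih =>
      intro hj
      have h1 := ih (by omega)
      have h2 : ¬ ((indep G (j + 1)).card : ℝ) ≤ δ * n * (indep G j).card :=
        Nat.find_min hex (by omega)
      have h3 := (not_le.1 h2).le
      calc (δ * n) ^ (j + 1) = δ * n * (δ * n) ^ j := by rw [pow_succ]; ring
        _ ≤ δ * n * (indep G j).card := mul_le_mul_of_nonneg_left h1 (by positivity)
        _ ≤ _ := h3
  have hNr := hlow r le_rfl
  -- the good tuples
  set H : Finset (Fin r → V) := (indep G r).filter fun x => ((ext G x).card : ℝ) ≤ 2 * δ * n with hH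
  have hHcard : ((indep G r).card : ℝ) / 2 ≤ H.card := by
    have h1 : (((indep G r).filter fun x => ¬ ((ext G x).card : ℝ) ≤ 2 * δ * n).card : ℝ) * (2 * δ * n) ≤
        ((indep G (r + 1)).card : ℝ) := by
      rw [card_indep_succ]
      calc (((indep G r).filter fun x => ¬ ((ext G x).card : ℝ) ≤ 2 * δ * n).card : ℝ) * (2 * δ * n)
          = ∑ _x ∈ (indep G r).filter (fun x => ¬ ((ext G x).card : ℝ) ≤ 2 * δ * n), (2 * δ * n) := by
            rw [sum_const, nsmul_eq_mul]
        _ ≤ ∑ x ∈ (indep G r).filter (fun x => ¬ ((ext G x).card : ℝ) ≤ 2 * δ * n),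
            ((ext G x).card : ℝ) := by
            refine Finset.sum_le_sum fun x hx => ?_
            rw [mem_filter] at hx
            exact (not_le.1 hx.2).le
        _ ≤ ∑ x ∈ indep G r, ((ext G x).card : ℝ) :=
            Finset.sum_le_sum_of_subset_of_nonneg (filter_subset _ _) (fun _ _ _ => Nat.cast_nonneg _)
    have h2 := h1.trans hr1
    have h3 : (((indep G r).filter fun x => ¬ ((ext G x).card : ℝ) ≤ 2 * δ * n).card : ℝ) ≤
        ((indep G r).card : ℝ) / 2 := by
      have h4 : (0 : ℝ) < δ * n := by positivity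
      have h5 : (δ * n) * (2 * (((indep G r).filter fun x => ¬ ((ext G x).card : ℝ) ≤ 2 * δ * n).card : ℝ)) ≤
          (δ * n) * ((indep G r).card : ℝ) := by
        calc _ = (((indep G r).filter fun x => ¬ ((ext G x).card : ℝ) ≤ 2 * δ * n).card : ℝ) * (2 * δ * n) := by
              ring
          _ ≤ _ := h2
      have h6 := le_of_mul_le_mul_left h5 h4
      linarith
    have h7 : ((indep G r).card : ℝ) = H.card +
        (((indep G r).filter fun x => ¬ ((ext G x).card : ℝ) ≤ 2 * δ * n).card : ℝ) := by
      rw [hH]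
      exact_mod_cast (Finset.card_filter_add_card_filter_not
        (s := indep G r) (fun x => ((ext G x).card : ℝ) ≤ 2 * δ * n)).symm
    linarith
  -- the box
  set β : ℝ := δ ^ r / 16 with hβ
  have hβ0 : 0 < β := by rw [hβ]; positivity
  have hβ1 : β ≤ 1 := by
    rw [hβ]
    have : δ ^ r ≤ 1 := pow_le_one₀ hδ0.le hδ1
    linarith
  have hHβ : 8 * β * (Fintype.card V : ℝ) ^ r ≤ H.card := by
    refine le_trans ?_ hHcard
    have : 8 * β * (Fintype.card V : ℝ) ^ r = (δ * n) ^ r / 2 := by
      rw [hβ, mul_pow, ← hn0]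
      ring
    rw [this]
    linarith
  have hcond : (s : ℝ) ≤ β ^ ((s + 1) ^ r) * Fintype.card V := by
    refine hn.trans (mul_le_mul_of_nonneg_right ?_ (Nat.cast_nonneg _))
    have h1 : δ ^ a / 16 ≤ β := by
      rw [hβ]
      have : δ ^ a ≤ δ ^ r := pow_le_pow_of_le_one hδ0.le hδ1 hra
      linarith
    have h2 : 0 ≤ δ ^ a / 16 := by positivity
    calc (δ ^ a / 16) ^ ((s + 1) ^ a) ≤ (δ ^ a / 16) ^ ((s + 1) ^ r) :=
          pow_le_pow_of_le_one h2 (h1.trans hβ1) (Nat.pow_le_pow_right (by omega) hra)
      _ ≤ β ^ ((s + 1) ^ r) := pow_le_pow_left₀ h2 h1 _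
  obtain ⟨S, hS, hall⟩ := box hs1 r β hβ0 hβ1 H hHβ hcond
  -- covering of the vertex set
  set CN : Fin r → Finset V := fun i => univ.filter fun w => ∀ v ∈ S i, G.Adj v w with hCN
  have hcov : (univ : Finset V) ⊆ (univ.biUnion CN ∪ univ.biUnion S) ∪
      (Fintype.piFinset S).biUnion (fun y => ext G y) := by
    intro z _
    by_contra hz
    simp only [mem_union, not_or] at hz
    obtain ⟨⟨hz1, hz2⟩, hz3⟩ := hz
    have h1 : ∀ i, ∃ v ∈ S i, ¬ G.Adj v z := by
      intro i
      by_contra hcon
      push Not at hcon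
      exact hz1 (mem_biUnion.2 ⟨i, mem_univ _, by rw [hCN, mem_filter]; exact ⟨mem_univ _, hcon⟩⟩)
    choose y hy1 hy2 using h1
    have hyH := hall y hy1
    rw [hH, mem_filter] at hyH
    refine hz3 (mem_biUnion.2 ⟨y, Fintype.mem_piFinset.2 hy1, ?_⟩)
    unfold ext
    rw [mem_filter]
    refine ⟨mem_univ _, cons_indep hyH.1 ?_ hy2⟩
    intro i hi
    exact hz2 (mem_biUnion.2 ⟨i, mem_univ _, hi ▸ hy1 i⟩)
  have hcard := Finset.card_le_card hcov
  rw [card_univ] at hcard
  have hA : ((univ.biUnion CN).card : ℝ) ≤ r * c := by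
    calc ((univ.biUnion CN).card : ℝ) ≤ ∑ i : Fin r, ((CN i).card : ℝ) := by
          exact_mod_cast Finset.card_biUnion_le
      _ ≤ ∑ _i : Fin r, c := by
          refine Finset.sum_le_sum fun i _ => ?_
          have h1 := hc (S i) (hS i)
          have h2 : {w : V | ∀ v ∈ S i, G.Adj v w}.ncard = (CN i).card := by
            rw [← Set.ncard_coe_finset]
            congr 1
            ext w
            simp [hCN]
          rw [h2] at h1
          exact h1
      _ = r * c := by rw [sum_const, card_univ, Fintype.card_fin, nsmul_eq_mul]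
  have hB : ((univ.biUnion S).card : ℝ) ≤ r * s := by
    calc ((univ.biUnion S).card : ℝ) ≤ ∑ i : Fin r, ((S i).card : ℝ) := by
          exact_mod_cast Finset.card_biUnion_le
      _ = ∑ _i : Fin r, (s : ℝ) := Finset.sum_congr rfl fun i _ => by rw [hS i]
      _ = r * s := by rw [sum_const, card_univ, Fintype.card_fin, nsmul_eq_mul]
  have hC : (((Fintype.piFinset S).biUnion (fun y => ext G y)).card : ℝ) ≤ ε * n := by
    have h1 : ((Fintype.piFinset S).card : ℝ) ≤ (s : ℝ) ^ a := by
      rw [Fintype.card_piFinset]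
      push_cast
      rw [Finset.prod_congr rfl (fun i _ => by rw [hS i]), prod_const, card_univ, Fintype.card_fin]
      exact pow_le_pow_right₀ hs0 hra
    calc (((Fintype.piFinset S).biUnion (fun y => ext G y)).card : ℝ)
        ≤ ∑ y ∈ Fintype.piFinset S, ((ext G y).card : ℝ) := by exact_mod_cast Finset.card_biUnion_le
      _ ≤ ∑ _y ∈ Fintype.piFinset S, (2 * δ * n) := by
          refine Finset.sum_le_sum fun y hy => ?_
          have := hall y (fun i => (Fintype.mem_piFinset.1 hy) i)
          rw [hH, mem_filter] at this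
          exact this.2
      _ = (Fintype.piFinset S).card * (2 * δ * n) := by rw [sum_const, nsmul_eq_mul]
      _ ≤ (s : ℝ) ^ a * (2 * δ * n) := mul_le_mul_of_nonneg_right h1 (by positivity)
      _ = ε * n := by
          rw [hδ]
          field_simp
  have hcard' : (n : ℝ) ≤ ((univ.biUnion CN).card + (univ.biUnion S).card) +
      ((Fintype.piFinset S).biUnion (fun y => ext G y)).card := by
    have h1 := hcard.trans (Finset.card_union_le _ _)
    have h2 := Finset.card_union_le (univ.biUnion CN) (univ.biUnion S)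
    have h3 : n ≤ ((univ.biUnion CN).card + (univ.biUnion S).card) +
      ((Fintype.piFinset S).biUnion (fun y => ext G y)).card := by omega
    exact_mod_cast h3
  have hrc : (r : ℝ) * c + r * s ≤ a * (c + s) := by
    have hc0 : 0 ≤ c + s ∨ r = 0 := by
      by_cases h0 : r = 0
      · exact Or.inr h0
      · left
        have h1 := hc (S ⟨0, by omega⟩) (hS _)
        have h2 : (0 : ℝ) ≤ ({w : V | ∀ v ∈ S ⟨0, by omega⟩, G.Adj v w}.ncard : ℕ) := Nat.cast_nonneg _
        linarith
    have hra' : (r : ℝ) ≤ a := by exact_mod_cast hra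
    rcases hc0 with h | h
    · nlinarith
    · -- `r = 0` : every vertex extends the empty tuple, impossible unless `ε n ≥ n`
      exfalso
      have h1 : (n : ℝ) ≤ ε * n := by
        have h2 : ((univ.biUnion CN).card : ℝ) = 0 := by
          have : (univ : Finset (Fin r)) = ∅ := by
            rw [← Finset.card_eq_zero, card_univ, Fintype.card_fin, h]
          rw [this]; simp
        have h3 : ((univ.biUnion S).card : ℝ) = 0 := by
          have : (univ : Finset (Fin r)) = ∅ := by
            rw [← Finset.card_eq_zero, card_univ, Fintype.card_fin, h]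
          rw [this]; simp
        rw [h2, h3] at hcard'
        linarith
      -- at level 0 the inequality says `n ≤ δ n`
      have h4 : ((indep G 1).card : ℝ) = n := by
        have h5 : (indep G 1).card = n := by
          have : indep G 1 = univ := by
            ext x
            rw [mem_indep]
            constructor
            · intro _; exact mem_univ _
            · intro _
              refine ⟨Function.injective_of_subsingleton x, fun i j => ?_⟩
              rw [Subsingleton.elim i j]
              exact G.loopless.irrefl _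
          rw [this, card_univ, Fintype.card_fun, Fintype.card_fin, pow_one]
        exact_mod_cast h5
      have h6 : ((indep G 0).card : ℝ) = 1 := by
        have : indep G 0 = univ := by
          ext x
          rw [mem_indep]
          exact ⟨fun _ => mem_univ _, fun _ => ⟨fun i => i.elim0, fun i => i.elim0⟩⟩
        rw [this]
        simp
      have h7 : ((indep G (r + 1)).card : ℝ) = n := by rw [h]; exact h4
      have h8 : ((indep G r).card : ℝ) = 1 := by rw [h]; exact h6
      rw [h7, h8, mul_one] at hr1
      have h9 : δ ≤ 1 / 2 := by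
        rw [hδ, div_le_div_iff₀ (by positivity) (by norm_num)]
        nlinarith
      nlinarith
  linarith

end Pool.Agent.V7H22.VU
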