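import Pool.Agent.V7H22.VU.Core

/-!
The range `n ≤ ζ Δ log log Δ / (2 log (s + 1))` of Vu's conjecture on independence numbers.
-/

set_option autoImplicit false

namespace Pool.Agent.V7H22.VU

open Finset Filter Topology

lemma indep_empty {V : Type*} [Fintype V] [DecidableEq V] (G : SimpleGraph V) :
    indep G (G.indepNum + 1) = ∅ := by
  classical
  rw [Finset.eq_empty_iff_forall_notMem]
  intro x hx
  rw [mem_indep] at hx
  have h1 : G.IsIndepSet ((univ.image x : Finset V) : Set V) := by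
    intro u hu v hv _
    rw [Finset.coe_image] at hu hv
    obtain ⟨i, _, rfl⟩ := hu
    obtain ⟨j, _, rfl⟩ := hv
    exact hx.2 i j
  have h2 := h1.card_le_indepNum
  rw [Finset.card_image_of_injective _ hx.1, card_univ, Fintype.card_fin] at h2
  omega

theorem explicit {V : Type*} [Fintype V] [DecidableEq V] (G : SimpleGraph V) {s : ℕ} (hs1 : 1 ≤ s)
    {c : ℝ} (hc : CommonAtMost G s c) {ε : ℝ} (hε : 0 < ε) (hε1 : ε ≤ 1) {a : ℕ}
    (ha : G.indepNum ≤ a)
    (hn : (s : ℝ) ≤ ((ε / (2 * (s : ℝ) ^ a)) ^ a / 16) ^ ((s + 1) ^ a) * Fintype.card V) :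
    (1 - ε) * Fintype.card V ≤ a * (c + s) := by
  refine core G hs1 hc ?_ hε hε1 hn
  have h := indep_empty G
  rw [Finset.eq_empty_iff_forall_notMem] at h ⊢
  intro x hx
  rw [mem_indep] at hx
  refine h (fun i => x (Fin.castLE (by omega) i)) ?_
  rw [mem_indep]
  refine ⟨fun i j hij => ?_, fun i j => hx.2 _ _⟩
  have := hx.1 hij
  exact Fin.castLE_injective _ this

lemma eventually_ineq (A B : ℝ) (hA : 0 ≤ A) :
    ∀ᶠ L : ℝ in atTop, √L * (A * (1 + Real.log L) ^ 2 + 3) + B ≤ L := by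
  have h1 : ∀ᶠ L : ℝ in atTop, ‖Real.log L‖ ≤ 1 * ‖L ^ (1 / 8 : ℝ)‖ :=
    (isLittleO_log_rpow_atTop (by norm_num : (0 : ℝ) < 1 / 8)).bound one_pos
  have h2 : ∀ᶠ L : ℝ in atTop, 4 * A + 3 + |B| ≤ L ^ (1 / 4 : ℝ) :=
    (tendsto_rpow_atTop (by norm_num : (0 : ℝ) < 1 / 4)).eventually_ge_atTop _
  filter_upwards [h1, h2, eventually_ge_atTop (1 : ℝ)] with L h1 h2 h3
  have hL0 : 0 < L := by linarith
  have hlog : 0 ≤ Real.log L := Real.log_nonneg h3
  have hp : 0 < L ^ (1 / 8 : ℝ) := Real.rpow_pos_of_pos hL0 _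
  rw [one_mul, Real.norm_of_nonneg hlog, Real.norm_of_nonneg hp.le] at h1
  have h4 : 1 ≤ L ^ (1 / 8 : ℝ) := Real.one_le_rpow h3 (by norm_num)
  have h5 : (1 + Real.log L) ^ 2 ≤ 4 * L ^ (1 / 4 : ℝ) := by
    have e : L ^ (1 / 4 : ℝ) = (L ^ (1 / 8 : ℝ)) ^ 2 := by
      rw [← Real.rpow_natCast, ← Real.rpow_mul hL0.le]
      norm_num
    rw [e]
    nlinarith
  have h6 : √L * L ^ (1 / 4 : ℝ) = L ^ (3 / 4 : ℝ) := by
    rw [Real.sqrt_eq_rpow, ← Real.rpow_add hL0]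
    norm_num
  have h7 : √L ≤ L ^ (3 / 4 : ℝ) := by
    rw [Real.sqrt_eq_rpow]
    exact Real.rpow_le_rpow_of_exponent_le h3 (by norm_num)
  have h8 : L = L ^ (3 / 4 : ℝ) * L ^ (1 / 4 : ℝ) := by
    rw [← Real.rpow_add hL0]
    norm_num
  have h9 : 1 ≤ L ^ (3 / 4 : ℝ) := Real.one_le_rpow h3 (by norm_num)
  have hs0 : 0 ≤ √L := Real.sqrt_nonneg L
  calc √L * (A * (1 + Real.log L) ^ 2 + 3) + B
      ≤ √L * (A * (4 * L ^ (1 / 4 : ℝ)) + 3) + |B| := by
        have : A * (1 + Real.log L) ^ 2 ≤ A * (4 * L ^ (1 / 4 : ℝ)) := mul_le_mul_of_nonneg_left h5 hA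
        have h10 := le_abs_self B
        nlinarith
    _ = 4 * A * (√L * L ^ (1 / 4 : ℝ)) + 3 * √L + |B| := by ring
    _ ≤ 4 * A * L ^ (3 / 4 : ℝ) + 3 * L ^ (3 / 4 : ℝ) + |B| * L ^ (3 / 4 : ℝ) := by
        rw [h6]
        have h11 : |B| ≤ |B| * L ^ (3 / 4 : ℝ) := le_mul_of_one_le_right (abs_nonneg B) h9
        linarith
    _ = L ^ (3 / 4 : ℝ) * (4 * A + 3 + |B|) := by ring
    _ ≤ L ^ (3 / 4 : ℝ) * L ^ (1 / 4 : ℝ) := mul_le_mul_of_nonneg_left h2 (by linarith)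
    _ = L := h8.symm

/-- The size condition holds when `a ≤ log log Δ / (2 log (s + 1))` and `n` is not much smaller
than `Δ`. -/
lemma size_condition {s a : ℕ} (hs : 2 ≤ s) {ε L n A B : ℝ} (hε : 0 < ε) (hε1 : ε ≤ 1)
    (hL0 : 0 < L) (hL1 : 1 ≤ Real.log L) (hn : 0 < n)
    (hA : A = Real.log 2 + Real.log s + Real.log (1 / ε))
    (ha : (a : ℝ) ≤ Real.log L / (2 * Real.log (s + 1)))
    (hL : √L * (A * (1 + Real.log L) ^ 2 + 3) + B ≤ L) (hnB : L - B + Real.log s ≤ Real.log n) :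
    (s : ℝ) ≤ ((ε / (2 * (s : ℝ) ^ a)) ^ a / 16) ^ ((s + 1) ^ a) * n := by
  have hs0 : (2 : ℝ) ≤ s := by exact_mod_cast hs
  have hspos : (0 : ℝ) < s := by linarith
  set δ : ℝ := ε / (2 * (s : ℝ) ^ a) with hδ
  have hδ0 : 0 < δ := by rw [hδ]; positivity
  have hl2 : 0 ≤ Real.log 2 := Real.log_nonneg (by norm_num)
  have hls : 0 ≤ Real.log s := Real.log_nonneg (by linarith)
  have hle : 0 ≤ Real.log (1 / ε) := Real.log_nonneg (by rw [le_div_iff₀ hε]; linarith)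
  have hA0 : 0 ≤ A := by rw [hA]; linarith
  have ha0 : (0 : ℝ) ≤ a := Nat.cast_nonneg a
  have hls1 : 1 / 2 ≤ Real.log (s + 1) := by
    have h1 : Real.log 2 ≤ Real.log (s + 1) := Real.log_le_log (by norm_num) (by linarith)
    have h2 := Real.log_two_gt_d9
    linarith
  have haL : (a : ℝ) ≤ Real.log L := by
    refine ha.trans ?_
    rw [div_le_iff₀ (by linarith)]
    nlinarith
  -- `(s + 1) ^ a ≤ √L`
  have hpow : ((s : ℝ) + 1) ^ a ≤ √L := by
    have h1 : (a : ℝ) * Real.log (s + 1) ≤ Real.log L / 2 := by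
      rw [le_div_iff₀ (by linarith)] at ha
      linarith
    have h2 : ((s : ℝ) + 1) ^ a = Real.exp ((a : ℝ) * Real.log (s + 1)) := by
      rw [Real.exp_nat_mul, Real.exp_log (by linarith)]
    have h3 : √L = Real.exp (Real.log L / 2) := by
      rw [Real.sqrt_eq_rpow, Real.rpow_def_of_pos hL0]
      congr 1
      ring
    rw [h2, h3]
    exact Real.exp_le_exp.2 h1
  have hlogδ : - Real.log δ ≤ A * (1 + a) := by
    have h1 : Real.log δ = - Real.log (1 / ε) - (Real.log 2 + a * Real.log s) := by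
      rw [hδ, Real.log_div (by positivity) (by positivity), Real.log_mul (by norm_num) (by positivity),
        Real.log_pow, one_div, Real.log_inv]
      ring
    rw [h1, hA]
    nlinarith [mul_nonneg ha0 hl2, mul_nonneg ha0 hle]
  have hl16 : Real.log 16 ≤ 3 := by
    have h1 : (16 : ℝ) = 2 ^ 4 := by norm_num
    rw [h1, Real.log_pow]
    have := Real.log_two_lt_d9
    push_cast
    linarith
  have hX0 : 0 < (δ ^ a / 16) ^ ((s + 1) ^ a) := by positivity
  have hlogX : Real.log ((δ ^ a / 16) ^ ((s + 1) ^ a)) =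
      ((s : ℝ) + 1) ^ a * (a * Real.log δ - Real.log 16) := by
    rw [Real.log_pow, Real.log_div (by positivity) (by norm_num), Real.log_pow]
    push_cast
    ring
  have hin : - (a * Real.log δ - Real.log 16) ≤ A * (1 + Real.log L) ^ 2 + 3 := by
    have h1 : (a : ℝ) * (- Real.log δ) ≤ a * (A * (1 + a)) := mul_le_mul_of_nonneg_left hlogδ ha0
    have h2 : (a : ℝ) * (A * (1 + a)) ≤ A * (1 + Real.log L) ^ 2 := by
      have h3 : (a : ℝ) * (1 + a) ≤ (1 + Real.log L) ^ 2 := by nlinarith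
      calc (a : ℝ) * (A * (1 + a)) = A * (a * (1 + a)) := by ring
        _ ≤ _ := mul_le_mul_of_nonneg_left h3 hA0
    linarith
  have hneg : - Real.log ((δ ^ a / 16) ^ ((s + 1) ^ a)) ≤ √L * (A * (1 + Real.log L) ^ 2 + 3) := by
    rw [hlogX]
    have h1 : 0 ≤ A * (1 + Real.log L) ^ 2 + 3 := by positivity
    calc - (((s : ℝ) + 1) ^ a * (a * Real.log δ - Real.log 16))
        = ((s : ℝ) + 1) ^ a * (- (a * Real.log δ - Real.log 16)) := by ring
      _ ≤ ((s : ℝ) + 1) ^ a * (A * (1 + Real.log L) ^ 2 + 3) :=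
          mul_le_mul_of_nonneg_left hin (by positivity)
      _ ≤ √L * (A * (1 + Real.log L) ^ 2 + 3) := mul_le_mul_of_nonneg_right hpow h1
  rw [← Real.log_le_log_iff hspos (by positivity), Real.log_mul hX0.ne' hn.ne']
  linarith

/-- **Vu's bound in the dense range.** -/
theorem vu (s : ℕ) (hs : 2 ≤ s) (ζ : ℝ) (hζ : 0 < ζ) (ε : ℝ) (hε : 0 < ε) :
    ∃ Δ₀ : ℕ, ∀ Δ : ℕ, Δ₀ ≤ Δ → ∀ (V : Type) [Fintype V] [DecidableEq V] (G : SimpleGraph V),
      CommonAtMost G s (ζ * Δ) →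
      (Fintype.card V : ℝ) ≤ ζ * Δ * (Real.log (Real.log Δ) / (2 * Real.log (s + 1))) →
      (1 / ζ - ε) * ((Fintype.card V : ℝ) / Δ) ≤ G.indepNum := by
  have hs0 : (2 : ℝ) ≤ s := by exact_mod_cast hs
  set ε' : ℝ := min (ε * ζ / 2) 1 with hε'
  have hε'0 : 0 < ε' := lt_min (by positivity) one_pos
  have hε'1 : ε' ≤ 1 := min_le_right _ _
  set A : ℝ := Real.log 2 + Real.log s + Real.log (1 / ε') with hA
  have hA0 : 0 ≤ A := by
    have h1 : 0 ≤ Real.log 2 := Real.log_nonneg (by norm_num)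
    have h2 : 0 ≤ Real.log s := Real.log_nonneg (by linarith)
    have h3 : 0 ≤ Real.log (1 / ε') := Real.log_nonneg (by rw [le_div_iff₀ hε'0]; linarith)
    rw [hA]; linarith
  set B : ℝ := Real.log s - Real.log ζ with hB
  have hlogD : Tendsto (fun Δ : ℕ => Real.log (Δ : ℝ)) atTop atTop :=
    Real.tendsto_log_atTop.comp tendsto_natCast_atTop_atTop
  have e1 : ∀ᶠ Δ : ℕ in atTop, √(Real.log Δ) * (A * (1 + Real.log (Real.log Δ)) ^ 2 + 3) + B ≤ Real.log Δ :=
    hlogD.eventually (eventually_ineq A B hA0)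
  have e2 : ∀ᶠ Δ : ℕ in atTop, 1 ≤ Real.log (Real.log Δ) :=
    (Real.tendsto_log_atTop.comp hlogD).eventually_ge_atTop 1
  have e3 : ∀ᶠ Δ : ℕ in atTop, (1 : ℝ) ≤ Real.log Δ := hlogD.eventually_ge_atTop 1
  have e4 : ∀ᶠ Δ : ℕ in atTop, 2 * s / (ζ ^ 2 * ε) ≤ (Δ : ℝ) :=
    tendsto_natCast_atTop_atTop.eventually_ge_atTop _
  obtain ⟨Δ₀, h0⟩ := eventually_atTop.1 (e1.and (e2.and (e3.and (e4.and (eventually_ge_atTop 1)))))
  refine ⟨Δ₀, fun Δ hΔ V _ _ G hc hn => ?_⟩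
  obtain ⟨h1, h2, h3, h4, h5⟩ := h0 Δ hΔ
  have hΔ0 : (0 : ℝ) < Δ := by exact_mod_cast h5
  by_contra hcon
  rw [not_le] at hcon
  set n : ℝ := (Fintype.card V : ℝ) with hndef
  have hn0 : 0 ≤ n := Nat.cast_nonneg _
  have hi0 : (0 : ℝ) ≤ G.indepNum := Nat.cast_nonneg _
  have hnpos : 0 < n := by
    refine lt_of_le_of_ne hn0 fun h => ?_
    rw [← h, zero_div, mul_zero] at hcon
    linarith
  have hfac : 0 < 1 / ζ - ε := by
    by_contra hneg
    have : (1 / ζ - ε) * (n / Δ) ≤ 0 :=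
      mul_nonpos_of_nonpos_of_nonneg (not_lt.1 hneg) (by positivity)
    linarith
  have hεζ : ε * ζ < 1 := by
    have : ε < 1 / ζ := by linarith
    rwa [lt_div_iff₀ hζ] at this
  have hε'eq : ε' = ε * ζ / 2 := by
    rw [hε']
    exact min_eq_left (by linarith)
  -- the independence number is at least one
  have hone : (1 : ℝ) ≤ G.indepNum := by
    have hne : Nonempty V := by
      rw [← Fintype.card_pos_iff]
      have h6 : (0 : ℝ) < (Fintype.card V : ℝ) := hnpos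
      exact_mod_cast h6
    obtain ⟨v⟩ := hne
    have h6 : G.IsIndepSet (({v} : Finset V) : Set V) := by
      intro x hx y hy hxy
      rw [Finset.coe_singleton, Set.mem_singleton_iff] at hx hy
      exact absurd (hx.trans hy.symm) hxy
    have h7 := h6.card_le_indepNum
    rw [card_singleton] at h7
    exact_mod_cast h7
  have hlt : (G.indepNum : ℝ) < n / (ζ * Δ) := by
    refine lt_of_lt_of_le hcon ?_
    have h6 : (1 / ζ - ε) * (n / Δ) ≤ 1 / ζ * (n / Δ) :=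
      mul_le_mul_of_nonneg_right (by linarith) (by positivity)
    refine h6.trans (le_of_eq ?_)
    field_simp
  have hnζ : ζ * Δ < n := by
    have h6 : (1 : ℝ) < n / (ζ * Δ) := lt_of_le_of_lt hone hlt
    rwa [one_lt_div (by positivity)] at h6
  have ha : (G.indepNum : ℝ) ≤ Real.log (Real.log Δ) / (2 * Real.log (s + 1)) := by
    refine hlt.le.trans ?_
    rw [div_le_iff₀ (by positivity)]
    linarith
  have hnB : Real.log Δ - B + Real.log s ≤ Real.log n := by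
    have h6 : Real.log (ζ * Δ) ≤ Real.log n := Real.log_le_log (by positivity) hnζ.le
    rw [Real.log_mul hζ.ne' hΔ0.ne'] at h6
    rw [hB]
    linarith
  have hcond := size_condition (a := G.indepNum) hs hε'0 hε'1 (by linarith) h2 hnpos hA ha h1 hnB
  have hmain := explicit G (by omega : 1 ≤ s) hc hε'0 hε'1 le_rfl hcond
  -- conclusion
  have h6 : (G.indepNum : ℝ) * (ζ * Δ + s) < (1 / ζ - ε) * (n / Δ) * (ζ * Δ + s) :=
    mul_lt_mul_of_pos_right hcon (by positivity)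
  have h7 : (1 / ζ - ε) * (n / Δ) * (ζ * Δ + s) ≤ n * (1 - ε * ζ) + n * (s / (ζ * Δ)) := by
    have e : (1 / ζ - ε) * (n / Δ) * (ζ * Δ + s) =
        n * (1 - ε * ζ) + n * (s / (ζ * Δ)) - ε * (n / Δ) * s := by
      field_simp
      ring
    rw [e]
    have : 0 ≤ ε * (n / Δ) * s := by positivity
    linarith
  have h8 : (s : ℝ) / (ζ * Δ) ≤ ε * ζ / 2 := by
    rw [div_le_iff₀ (by positivity)] at h4
    rw [div_le_iff₀ (by positivity)]
    have e : ε * ζ / 2 * (ζ * Δ) = (Δ : ℝ) * (ζ ^ 2 * ε) / 2 := by ring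
    rw [e]
    linarith
  have h9 : n * (s / (ζ * Δ)) ≤ n * (ε * ζ / 2) := mul_le_mul_of_nonneg_left h8 hn0
  rw [hε'eq] at hmain
  nlinarith

/-- For fixed independence number some `s` vertices have almost `n / a` common neighbours. -/
theorem fixed_indep (s a : ℕ) (hs : 1 ≤ s) (ha : 1 ≤ a) (ε : ℝ) (hε : 0 < ε) :
    ∃ n₀ : ℕ, ∀ (V : Type) [Fintype V] [DecidableEq V] (G : SimpleGraph V),
      n₀ ≤ Fintype.card V → G.indepNum ≤ a →
      ∃ S : Finset V, S.card = s ∧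
        (1 - ε) * ((Fintype.card V : ℝ) / a) ≤ ({w : V | ∀ v ∈ S, G.Adj v w}.ncard : ℕ) := by
  classical
  have hs0 : (1 : ℝ) ≤ s := by exact_mod_cast hs
  have ha0 : (1 : ℝ) ≤ a := by exact_mod_cast ha
  set ε' : ℝ := min (ε / 2) 1 with hε'
  have hε'0 : 0 < ε' := lt_min (by positivity) one_pos
  have hε'1 : ε' ≤ 1 := min_le_right _ _
  set X : ℝ := ((ε' / (2 * (s : ℝ) ^ a)) ^ a / 16) ^ ((s + 1) ^ a) with hX
  have hX0 : 0 < X := by
    rw [hX]; positivity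
  obtain ⟨n₁, hn₁⟩ := exists_nat_ge (s / X)
  obtain ⟨n₂, hn₂⟩ := exists_nat_ge (2 * a * (s + 1) / ε)
  refine ⟨max n₁ (max n₂ s), fun V _ _ G hn hi => ?_⟩
  by_contra hcon
  push Not at hcon
  set n : ℝ := (Fintype.card V : ℝ) with hndef
  have h1 : (n₁ : ℝ) ≤ n := by
    rw [hndef]
    exact_mod_cast (le_max_left _ _).trans hn
  have h2 : (n₂ : ℝ) ≤ n := by
    rw [hndef]
    exact_mod_cast ((le_max_left _ _).trans (le_max_right _ _)).trans hn
  have hsn : s ≤ Fintype.card V := ((le_max_right _ _).trans (le_max_right _ _)).trans hn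
  have hc : CommonAtMost G s ((1 - ε) * (n / a)) := fun S hS => (hcon S hS).le
  have hcond : (s : ℝ) ≤ X * n := by
    have h3 : (s : ℝ) / X ≤ n := hn₁.trans h1
    rw [div_le_iff₀ hX0] at h3
    linarith
  have hmain := explicit G hs hc hε'0 hε'1 hi hcond
  have h4 : (a : ℝ) * ((1 - ε) * (n / a) + s) = (1 - ε) * n + a * s := by
    field_simp
  rw [h4] at hmain
  have h5 : ε' ≤ ε / 2 := min_le_left _ _
  have hn0 : 0 ≤ n := Nat.cast_nonneg _
  have h6 : 2 * a * (s + 1) ≤ ε * n := by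
    have h7 : 2 * a * (s + 1) / ε ≤ n := hn₂.trans h2
    rw [div_le_iff₀ hε] at h7
    linarith
  nlinarith

end Pool.Agent.V7H22.VU
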